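import Mathlib
import Pool.Agent.NH47.TotLate

/-!
# Extending total colourings of distance-7 matchings in bipartite graphs
-/

set_option autoImplicit false

namespace Pool.Agent.Results.MP_db9399_co.BipartiteDistanceSeven

open Pool.Agent.R61.TotExt Pool.Agent.TH559.LE

/-- Let `G` be a bipartite graph (every edge has exactly one end in `X`) with all degrees at most
`Δ`, and let `H` be a distance-3 matching of `G` (each vertex has at most one neighbour in `H`, and
ends of different edges of `H` are at distance at least 3 in `G`), such that moreover every vertex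
covered by `H` that is not in `X` has distance at least 7 from the ends of all other edges of
`H`. Then every total colouring `(f0, g0)` of `H` with `Δ + 2` colours extends to a total
colouring `(f, g)` of `G` with `Δ + 2` colours. In particular this holds for all distance-7
matchings `H` in bipartite graphs `G`. -/
theorem result {V : Type} [Fintype V] (G H : SimpleGraph V) (Δ : ℕ) (X : Set V)
    (hX : ∀ u v, G.Adj u v → (u ∈ X ↔ v ∉ X))
    (hΔ : ∀ v, (G.neighborSet v).ncard ≤ Δ)
    (hHG : H ≤ G) (hmatch : ∀ u v w, H.Adj u v → H.Adj u w → v = w)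
    (hdist : ∀ u v x y, H.Adj u v → H.Adj x y → s(u, v) ≠ s(x, y) → 3 ≤ G.edist u x)
    (hfar : ∀ u v x y, H.Adj u v → H.Adj x y → s(u, v) ≠ s(x, y) → x ∉ X → 7 ≤ G.edist u x)
    (f0 : V → Fin (Δ + 2)) (g0 : Sym2 V → Fin (Δ + 2)) (h0 : IsTotal H f0 g0) :
    ∃ (f : V → Fin (Δ + 2)) (g : Sym2 V → Fin (Δ + 2)), IsTotal G f g ∧
      ∀ u v, H.Adj u v → f u = f0 u ∧ g s(u, v) = g0 s(u, v) := by
  classical
  rcases Nat.eq_zero_or_pos Δ with rfl | hΔ0
  · exact Pool.Agent.NH47.TB.no_edges G H hHG hΔ f0 g0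
  obtain ⟨cc, hcc⟩ := Pool.Agent.NH47.TB.near_colour G H hdist g0
  -- colours away from the matching
  have hγ : ∀ x, ∃ γ : Fin (Δ + 2), ∀ y, G.Adj x y → γ ≠ cc y := by
    intro x
    have hcard : ((Finset.univ.filter (fun y => G.Adj x y)).image cc).card <
        (Finset.univ : Finset (Fin (Δ + 2))).card := by
      rw [Finset.card_univ, Fintype.card_fin]
      refine lt_of_le_of_lt Finset.card_image_le ?_
      rw [← dg_eq]
      have h1 : dg G x ≤ Δ := hΔ x
      omega
    obtain ⟨γ, _, hγ⟩ := Finset.exists_mem_notMem_of_card_lt_card hcard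
    refine ⟨γ, fun y hy heq => hγ ?_⟩
    rw [Finset.mem_image]
    exact ⟨y, by simpa using hy, heq.symm⟩
  choose γ hγ using hγ
  -- the colour of the ball around a covered vertex
  have hβ : ∀ v, ∃ β : Fin (Δ + 2), β ≠ f0 v ∧ ∀ w, H.Adj v w → β ≠ g0 s(v, w) := by
    intro v
    have hcard : ({f0 v} ∪ (Finset.univ.filter (fun w => H.Adj v w)).image
        (fun w => g0 s(v, w))).card < (Finset.univ : Finset (Fin (Δ + 2))).card := by
      rw [Finset.card_univ, Fintype.card_fin]
      have h1 := Finset.card_union_le {f0 v} ((Finset.univ.filter (fun w => H.Adj v w)).image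
        (fun w => g0 s(v, w)))
      have h2 : ((Finset.univ.filter (fun w => H.Adj v w)).image (fun w => g0 s(v, w))).card ≤
          (Finset.univ.filter (fun w => H.Adj v w)).card := Finset.card_image_le
      have h3 : (Finset.univ.filter (fun w => H.Adj v w)).card ≤ 1 := by
        rw [Finset.card_le_one]
        intro a ha b hb
        rw [Finset.mem_filter] at ha hb
        exact hmatch v a b ha.2 hb.2
      rw [Finset.card_singleton] at h1
      omega
    obtain ⟨β, _, hβ⟩ := Finset.exists_mem_notMem_of_card_lt_card hcard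
    rw [Finset.mem_union, not_or, Finset.mem_singleton] at hβ
    refine ⟨β, hβ.1, fun w hw heq => hβ.2 ?_⟩
    rw [Finset.mem_image]
    exact ⟨w, by simpa using hw, heq.symm⟩
  choose β hβ1 hβ2 using hβ
  -- vertices at distance at most three
  set N3 : V → V → Prop := fun x v => G.Adj x v ∨
    ∃ y x', G.Adj x y ∧ G.Adj y x' ∧ G.Adj x' v with hN3
  have hN3d : ∀ x v, N3 x v → G.edist x v ≤ 3 := by
    rintro x v (h | ⟨y, x', h1, h2, h3⟩)
    · have := SimpleGraph.edist_le (SimpleGraph.Walk.cons h SimpleGraph.Walk.nil)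
      refine this.trans ?_
      simp only [SimpleGraph.Walk.length_cons, SimpleGraph.Walk.length_nil]
      norm_num
    · have := SimpleGraph.edist_le (SimpleGraph.Walk.cons h1
        (SimpleGraph.Walk.cons h2 (SimpleGraph.Walk.cons h3 SimpleGraph.Walk.nil)))
      simpa using this
  have huniq : ∀ x v v', N3 x v → N3 x v' → v ∉ X → v' ∉ X → (∃ w, H.Adj v w) →
      (∃ w, H.Adj v' w) → v = v' := by
    rintro x v v' h1 h2 h3 h4 ⟨w, hw⟩ ⟨w', hw'⟩
    by_contra hne
    have hne' : s(v, w) ≠ s(v', w') := by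
      intro h
      rw [Sym2.eq_iff] at h
      rcases h with ⟨h5, _⟩ | ⟨h5, h6⟩
      · exact hne h5
      · subst h5
        subst h6
        exact h3 ((hX v w (hHG hw)).2 h4)
    have h5 := hfar v w v' w' hw hw' hne' h4
    have h6 : G.edist v v' ≤ G.edist v x + G.edist x v' := SimpleGraph.edist_triangle
    have h7 : G.edist v x ≤ 3 := by
      rw [SimpleGraph.edist_comm]
      exact hN3d x v h1
    have h8 := hN3d x v' h2
    have h9 : (7 : ℕ∞) ≤ 3 + 3 := h5.trans (h6.trans (add_le_add h7 h8))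
    exact absurd h9 (by decide)
  set α : V → Fin (Δ + 2) := fun x =>
    if h : ∃ v, v ∉ X ∧ (∃ w, H.Adj v w) ∧ N3 x v then β (Classical.choose h) else γ x with hα
  have hαN : ∀ x v, v ∉ X → (∃ w, H.Adj v w) → N3 x v → α x = β v := by
    intro x v h1 h2 h3
    have hex : ∃ v, v ∉ X ∧ (∃ w, H.Adj v w) ∧ N3 x v := ⟨v, h1, h2, h3⟩
    simp only [hα]
    rw [dif_pos hex]
    obtain ⟨h4, h5, h6⟩ := Classical.choose_spec hex
    rw [huniq x _ v h6 h3 h4 h1 h5 h2]
  refine Pool.Agent.NH47.TB.late_ext G H Δ (fun v => v ∈ X) hX hΔ0 hΔ hHG hmatch hdist f0 g0 h0 α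
    ?_ ?_ ?_
  · intro x u hx _ hxu hu
    rw [hαN x u ((hX x u hxu).1 hx) hu (Or.inl hxu)]
    exact hβ1 u
  · intro x y u w hx hxD hyD hxy hyu huw
    have hyX : y ∉ X := (hX x y hxy).1 hx
    have huX : u ∈ X := by
      by_contra h
      exact hyX ((hX y u hyu).2 h)
    have hwX : w ∉ X := (hX u w (hHG huw)).1 huX
    by_cases hex : ∃ v, v ∉ X ∧ (∃ w, H.Adj v w) ∧ N3 x v
    · obtain ⟨v, hv1, ⟨z, hz⟩, hv3⟩ := hex
      rw [hαN x v hv1 ⟨z, hz⟩ hv3]
      by_cases hvw : v = w
      · subst hvw
        have h1 := hβ2 v u huw.symm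
        rw [Sym2.eq_swap] at h1
        exact h1
      · exfalso
        have hne : s(u, w) ≠ s(v, z) := by
          intro h
          rw [Sym2.eq_iff] at h
          rcases h with ⟨h5, _⟩ | ⟨_, h6⟩
          · subst h5
            exact hv1 huX
          · exact hvw h6.symm
        have h5 := hfar u w v z huw hz hne hv1
        have h6 : G.edist u v ≤ G.edist u x + G.edist x v := SimpleGraph.edist_triangle
        have h7 : G.edist u x ≤ 2 := by
          have := SimpleGraph.edist_le (SimpleGraph.Walk.cons hyu.symm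
            (SimpleGraph.Walk.cons hxy.symm SimpleGraph.Walk.nil))
          simpa using this
        have h8 := hN3d x v hv3
        have h9 : (7 : ℕ∞) ≤ 2 + 3 := h5.trans (h6.trans (add_le_add h7 h8))
        exact absurd h9 (by decide)
    · simp only [hα]
      rw [dif_neg hex, ← hcc y u w hyu huw]
      exact hγ x y hxy
  · intro x u w hx hxD _ hxu huw
    have huX : u ∉ X := (hX x u hxu).1 hx
    by_cases hall : ∀ y, G.Adj x y → (¬ ∃ w, H.Adj y w) → ∃ u, G.Adj y u ∧ ∃ w, H.Adj u w
    · exact Or.inr hall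
    · left
      push Not at hall
      obtain ⟨y, hxy, hyD, hy⟩ := hall
      refine ⟨y, hxy, fun ⟨w, hw⟩ => hyD w hw, fun z hyz => ⟨fun ⟨w, hw⟩ => hy z hyz w hw, ?_⟩⟩
      rw [hαN x u huX ⟨w, huw⟩ (Or.inl hxu),
        hαN z u huX ⟨w, huw⟩ (Or.inr ⟨y, x, hyz.symm, hxy.symm, hxu⟩)]

end Pool.Agent.Results.MP_db9399_co.BipartiteDistanceSeven
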