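import Mathlib
import Pool.Agent.NH47.TotHall

/-!
# Extending total colourings of distance-3 matchings in bipartite graphs: a missing colour
-/

set_option autoImplicit false

namespace Pool.Agent.Results.MP_db9399_co.BipartiteMissingColour

open Pool.Agent.R61.TotExt Pool.Agent.TH559.LE

/-- Let `G` be a bipartite graph (every edge has exactly one end in `X`) with all degrees at most
`Δ`, let `H` be a distance-3 matching of `G` (each vertex has at most one neighbour in `H`, and
ends of different edges of `H` are at distance at least 3 in `G`), and let `(f0, g0)` be a total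
colouring of `H` with `Δ + 2` colours. Suppose that colours `α x` can be chosen for the vertices
`x ∈ X` not covered by `H` such that `α x` is not the colour of a neighbour of `x` covered by `H`
(`h1`), is not the colour of an edge of `H` at distance 2 from `x` (`h2`), and such that `α` is
constant on the neighbourhood of each vertex outside `X` that is neither covered by `H` nor
adjacent to a vertex covered by `H` (`h3`). Then the colouring extends to a total colouring
`(f, g)` of `G` with `Δ + 2` colours. The function `α` can be constant if some colour is used on no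
edge of `H` and on no vertex of `H` outside `X`. -/
theorem result {V : Type} [Fintype V] (G H : SimpleGraph V) (Δ : ℕ) (X : Set V)
    (hX : ∀ u v, G.Adj u v → (u ∈ X ↔ v ∉ X))
    (hΔ : ∀ v, (G.neighborSet v).ncard ≤ Δ)
    (hHG : H ≤ G) (hmatch : ∀ u v w, H.Adj u v → H.Adj u w → v = w)
    (hdist : ∀ u v x y, H.Adj u v → H.Adj x y → s(u, v) ≠ s(x, y) → 3 ≤ G.edist u x)
    (f0 : V → Fin (Δ + 2)) (g0 : Sym2 V → Fin (Δ + 2)) (h0 : IsTotal H f0 g0)
    (α : V → Fin (Δ + 2))
    (h1 : ∀ x u w, x ∈ X → (∀ z, ¬ H.Adj x z) → G.Adj x u → H.Adj u w → α x ≠ f0 u)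
    (h2 : ∀ x y u w, x ∈ X → (∀ z, ¬ H.Adj x z) → (∀ z, ¬ H.Adj y z) → G.Adj x y →
      G.Adj y u → H.Adj u w → α x ≠ g0 s(u, w))
    (h3 : ∀ x y x', x ∈ X → G.Adj x y → G.Adj y x' → (∀ z, ¬ H.Adj y z) →
      (∀ u z, G.Adj y u → ¬ H.Adj u z) → α x = α x') :
    ∃ (f : V → Fin (Δ + 2)) (g : Sym2 V → Fin (Δ + 2)), IsTotal G f g ∧
      ∀ u v, H.Adj u v → f u = f0 u ∧ g s(u, v) = g0 s(u, v) := by
  rcases Nat.eq_zero_or_pos Δ with rfl | hΔ0
  · exact Pool.Agent.NH47.TB.no_edges G H hHG hΔ f0 g0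
  · obtain ⟨σ, hσ1, hσ2, hσ3⟩ := Pool.Agent.NH47.TB.select_two G H Δ (fun v => v ∈ X) hX hΔ0 hΔ hHG
      (Pool.Agent.NH47.TB.near_two G H hdist)
      (fun x => x ∈ X ∧ (¬ ∃ w, H.Adj x w) ∧ (G.neighborSet x).ncard = Δ) (fun x => Iff.rfl)
    refine Pool.Agent.NH47.TB.main G H Δ (fun v => v ∈ X) hX hΔ0 hΔ hHG hmatch hdist f0 g0 h0 α σ
      ?_ ?_ (fun x => x ∈ X ∧ (¬ ∃ w, H.Adj x w) ∧ (G.neighborSet x).ncard = Δ)
      (fun x => Iff.rfl) hσ1 hσ2 ?_
    · rintro x u hx hxD hxu ⟨w, hw⟩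
      exact h1 x u w hx (fun z hz => hxD ⟨z, hz⟩) hxu hw
    · intro x y u w hx hxD hyD hxy hyu huw
      exact h2 x y u w hx (fun z hz => hxD ⟨z, hz⟩) (fun z hz => hyD ⟨z, hz⟩) hxy hyu huw
    · intro x x' hx hx' hne heq u hu
      have h4 := hσ3 x x' hx hx' hne heq
      refine ⟨h4 u hu, ?_⟩
      exact (h3 x (σ x) u hx.1 (hσ1 x hx).1 hu (fun z hz => (hσ1 x hx).2 ⟨z, hz⟩)
        (fun v z hv hz => h4 v hv ⟨z, hz⟩)).symm

end Pool.Agent.Results.MP_db9399_co.BipartiteMissingColour
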