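import Mathlib
import Pool.Agent.NH47.TotOne

/-!
# Extending total colourings of distance-3 matchings in bipartite graphs: one edge colour
-/

set_option autoImplicit false

namespace Pool.Agent.Results.MP_db9399_co.BipartiteOneEdgeColour

open Pool.Agent.R61.TotExt

/-- Let `G` be a bipartite graph (every edge has exactly one end in `X`) with all degrees at most
`Δ`, where `Δ ≥ 3`, and let `H` be a distance-3 matching of `G` (each vertex has at most one
neighbour in `H`, and ends of different edges of `H` are at distance at least 3 in `G`). Then every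
total colouring `(f0, g0)` of `H` with `Δ + 2` colours in which all edges of `H` have the same
colour `γ` (the colours of the vertices of `H` are arbitrary) extends to a total colouring `(f, g)`
of `G` with `Δ + 2` colours. -/
theorem result {V : Type} [Fintype V] (G H : SimpleGraph V) (Δ : ℕ) (hΔ3 : 3 ≤ Δ) (X : Set V)
    (hX : ∀ u v, G.Adj u v → (u ∈ X ↔ v ∉ X))
    (hΔ : ∀ v, (G.neighborSet v).ncard ≤ Δ)
    (hHG : H ≤ G) (hmatch : ∀ u v w, H.Adj u v → H.Adj u w → v = w)
    (hdist : ∀ u v x y, H.Adj u v → H.Adj x y → s(u, v) ≠ s(x, y) → 3 ≤ G.edist u x)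
    (f0 : V → Fin (Δ + 2)) (g0 : Sym2 V → Fin (Δ + 2)) (h0 : IsTotal H f0 g0)
    (γ : Fin (Δ + 2)) (hγ : ∀ u v, H.Adj u v → g0 s(u, v) = γ) :
    ∃ (f : V → Fin (Δ + 2)) (g : Sym2 V → Fin (Δ + 2)), IsTotal G f g ∧
      ∀ u v, H.Adj u v → f u = f0 u ∧ g s(u, v) = g0 s(u, v) :=
  Pool.Agent.NH47.TB.one_colour G H Δ (fun v => v ∈ X) hX hΔ3 hΔ hHG hmatch hdist f0 g0 h0 γ hγ

end Pool.Agent.Results.MP_db9399_co.BipartiteOneEdgeColour
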