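import Mathlib
import Pool.Agent.NH47.TotHall

/-!
# Extending total colourings of distance-3 matchings in bipartite graphs: one side matched
-/

set_option autoImplicit false

namespace Pool.Agent.Results.MP_db9399_co.BipartiteOneSide

open Pool.Agent.R61.TotExt Pool.Agent.TH559.LE

/-- Let `G` be a bipartite graph (every edge has exactly one end in `X`) with all degrees at most
`Δ`, and let `H` be a distance-3 matching of `G` (each vertex has at most one neighbour in `H`, and
ends of different edges of `H` are at distance at least 3 in `G`). Suppose that `G` has a matching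
`M`, none of whose edges meets a vertex covered by `H`, that covers every vertex of `X` that has
degree `Δ` and is not covered by `H`. Then every total colouring `(f0, g0)` of `H` with `Δ + 2`
colours extends to a total colouring `(f, g)` of `G` with `Δ + 2` colours. (Nothing is assumed
about the vertices of degree `Δ` outside `X`.) -/
theorem result {V : Type} [Fintype V] (G H M : SimpleGraph V) (Δ : ℕ) (X : Set V)
    (hX : ∀ u v, G.Adj u v → (u ∈ X ↔ v ∉ X))
    (hΔ : ∀ v, (G.neighborSet v).ncard ≤ Δ)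
    (hHG : H ≤ G) (hmatch : ∀ u v w, H.Adj u v → H.Adj u w → v = w)
    (hdist : ∀ u v x y, H.Adj u v → H.Adj x y → s(u, v) ≠ s(x, y) → 3 ≤ G.edist u x)
    (hMG : M ≤ G) (hMmatch : ∀ u v w, M.Adj u v → M.Adj u w → v = w)
    (hMH : ∀ u v w, M.Adj u v → ¬ H.Adj u w)
    (hMcover : ∀ x ∈ X, (∀ w, ¬ H.Adj x w) → (G.neighborSet x).ncard = Δ → ∃ y, M.Adj x y)
    (f0 : V → Fin (Δ + 2)) (g0 : Sym2 V → Fin (Δ + 2)) (h0 : IsTotal H f0 g0) :
    ∃ (f : V → Fin (Δ + 2)) (g : Sym2 V → Fin (Δ + 2)), IsTotal G f g ∧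
      ∀ u v, H.Adj u v → f u = f0 u ∧ g s(u, v) = g0 s(u, v) := by
  classical
  rcases Nat.eq_zero_or_pos Δ with rfl | hΔ0
  · exact Pool.Agent.NH47.TB.no_edges G H hHG hΔ f0 g0
  · obtain ⟨cc, hcc⟩ := Pool.Agent.NH47.TB.near_colour G H hdist g0
    have hα : ∀ x, ∃ γ : Fin (Δ + 2), ∀ y, G.Adj x y →
        γ ≠ (if ∃ w, H.Adj y w then f0 y else cc y) := by
      intro x
      have hcard : ((Finset.univ.filter (fun y => G.Adj x y)).image
          (fun y => if ∃ w, H.Adj y w then f0 y else cc y)).card <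
          (Finset.univ : Finset (Fin (Δ + 2))).card := by
        rw [Finset.card_univ, Fintype.card_fin]
        refine lt_of_le_of_lt Finset.card_image_le ?_
        rw [← dg_eq]
        have h1 : dg G x ≤ Δ := hΔ x
        omega
      obtain ⟨γ, _, hγ⟩ := Finset.exists_mem_notMem_of_card_lt_card hcard
      refine ⟨γ, fun y hy heq => hγ ?_⟩
      rw [Finset.mem_image]
      exact ⟨y, by simpa using hy, heq.symm⟩
    choose α hα using hα
    have hσ : ∀ x, ∃ y, (x ∈ X ∧ (¬ ∃ w, H.Adj x w) ∧ (G.neighborSet x).ncard = Δ) →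
        M.Adj x y := by
      intro x
      by_cases h : x ∈ X ∧ (¬ ∃ w, H.Adj x w) ∧ (G.neighborSet x).ncard = Δ
      · obtain ⟨y, hy⟩ := hMcover x h.1 (fun w hw => h.2.1 ⟨w, hw⟩) h.2.2
        exact ⟨y, fun _ => hy⟩
      · exact ⟨x, fun h' => absurd h' h⟩
    choose σ hσ using hσ
    have hinj : ∀ x x', (x ∈ X ∧ (¬ ∃ w, H.Adj x w) ∧ (G.neighborSet x).ncard = Δ) →
        (x' ∈ X ∧ (¬ ∃ w, H.Adj x' w) ∧ (G.neighborSet x').ncard = Δ) → x ≠ x' →
        σ x ≠ σ x' := by
      intro x x' hx hx' hne heq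
      have h1 := (hσ x hx).symm
      have h2 := (hσ x' hx').symm
      rw [← heq] at h2
      exact hne (hMmatch _ _ _ h1 h2)
    refine Pool.Agent.NH47.TB.main G H Δ (fun v => v ∈ X) hX hΔ0 hΔ hHG hmatch hdist f0 g0 h0 α σ
      ?_ ?_ (fun x => x ∈ X ∧ (¬ ∃ w, H.Adj x w) ∧ (G.neighborSet x).ncard = Δ)
      (fun x => Iff.rfl) ?_ ?_ ?_
    · intro x u _ _ hxu hu
      have h1 := hα x u hxu
      rwa [if_pos hu] at h1
    · intro x y u w _ _ hyD hxy hyu huw
      have h1 := hα x y hxy
      rw [if_neg hyD, hcc y u w hyu huw] at h1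
      exact h1
    · intro x hx
      have h1 := hσ x hx
      refine ⟨hMG h1, ?_⟩
      rintro ⟨w, hw⟩
      exact hMH _ _ w h1.symm hw
    · intro x x' x'' hx hx' _ h1 _ _ h2
      exact absurd h2 (hinj x x' hx hx' h1)
    · intro x x' hx hx' h1 h2
      exact absurd h2 (hinj x x' hx hx' h1)

end Pool.Agent.Results.MP_db9399_co.BipartiteOneSide
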